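import Pool.Agent.Y121.ZI.Stm
import Pool.Agent.Y427.ZI.Rank

/-!
# ZI2-STDD: nondegeneracy over the integers and over the field (helper689)
-/

set_option autoImplicit false

universe u v w

namespace Pool.Agent.Y689.ZI

open Module Pool.Agent.Y133.Half Pool.Agent.Y121.ZI Pool.Agent.Y121.ZI.NCTheory

/-- a system of integral linear forms which is nondegenerate on a subgroup is nondegenerate on its
span -/
theorem core {K : Type*} [Field K] [CharZero K] {V ι : Type*} [AddCommGroup V] [Module K V]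
    (G : AddSubgroup V) (B : ι → V →ₗ[K] K) (n : ι → G → ℤ)
    (hn : ∀ g (f : G), B g (f : V) = (n g f : K))
    (hnd : ∀ f : G, (∀ g, n g f = 0) → f = 0) {v : V}
    (hv : v ∈ Submodule.span K (G : Set V)) (h0 : ∀ g, B g v = 0) : v = 0 := by
  classical
  obtain ⟨b, hbG, hbs, hbi⟩ := exists_linearIndependent K (G : Set V)
  rw [← hbs] at hv
  have hv' : v ∈ Submodule.span K (Set.range ((↑) : b → V)) := by
    rw [Subtype.range_coe]
    exact hv
  obtain ⟨c, hc⟩ := (Finsupp.mem_span_range_iff_exists_finsupp).1 hv'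
  by_contra hne
  have hc0 : c ≠ 0 := by
    rintro rfl
    rw [Finsupp.sum_zero_index] at hc
    exact hne hc.symm
  obtain ⟨b0, hb0⟩ := Finsupp.ne_iff.1 hc0
  rw [Finsupp.zero_apply] at hb0
  obtain ⟨φ, hφ⟩ : ∃ φ : Module.Dual ℚ K, φ (c b0) ≠ 0 := by
    by_contra hcon
    push Not at hcon
    exact hb0 ((Module.forall_dual_apply_eq_zero_iff ℚ (c b0)).1 hcon)
  obtain ⟨N, hN⟩ := IsLocalization.exist_integer_multiples (nonZeroDivisors ℤ) c.support
    (fun x => φ (c x))
  have hN' : ∀ x : b, ∃ m : ℤ, x ∈ c.support → (m : ℚ) = (N : ℤ) * φ (c x) := by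
    intro x
    by_cases hx : x ∈ c.support
    · obtain ⟨m, hm⟩ := hN x hx
      refine ⟨m, fun _ => ?_⟩
      have h1 : (m : ℚ) = (N : ℤ) • φ (c x) := hm
      rw [h1, zsmul_eq_mul]
    · exact ⟨0, fun h => absurd h hx⟩
  choose m hm using hN'
  have hN0 : ((N : ℤ) : ℚ) ≠ 0 := by
    have := nonZeroDivisors.ne_zero N.2
    exact_mod_cast this
  have hb0s : b0 ∈ c.support := Finsupp.mem_support_iff.2 hb0
  have hm0 : m b0 ≠ 0 := by
    intro h1
    have h2 := hm b0 hb0s
    rw [h1, Int.cast_zero] at h2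
    exact mul_ne_zero hN0 hφ h2.symm
  -- the integral combination
  let el : b → G := fun x => ⟨x, hbG x.2⟩
  obtain ⟨F, hF⟩ : ∃ F : G, F = ∑ x ∈ c.support, m x • el x := ⟨_, rfl⟩
  have hFv : (F : V) = ∑ x ∈ c.support, (m x : K) • (x : V) := by
    rw [hF, AddSubgroup.val_finsetSum]
    refine Finset.sum_congr rfl fun x _ => ?_
    rw [AddSubgroup.coe_zsmul, Int.cast_smul_eq_zsmul]
  have hrel : ∀ g, ∑ x ∈ c.support, m x * n g (el x) = 0 := by
    intro g
    have h1 := h0 g
    rw [← hc, Finsupp.sum, map_sum] at h1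
    have h2 : ∀ x ∈ c.support, B g (c x • (x : V)) = (n g (el x) : ℤ) • c x := by
      intro x _
      rw [map_smul, smul_eq_mul, zsmul_eq_mul, mul_comm]
      congr 1
      exact hn g (el x)
    rw [Finset.sum_congr rfl h2] at h1
    have h3 := congrArg φ h1
    rw [map_sum, map_zero] at h3
    have h4 : ∀ x ∈ c.support, φ ((n g (el x) : ℤ) • c x) = (n g (el x) : ℚ) * φ (c x) := by
      intro x _
      rw [map_zsmul, zsmul_eq_mul]
    rw [Finset.sum_congr rfl h4] at h3
    have h5 : ((∑ x ∈ c.support, m x * n g (el x) : ℤ) : ℚ) = 0 := by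
      rw [Int.cast_sum]
      have h6 : ∀ x ∈ c.support, ((m x * n g (el x) : ℤ) : ℚ) =
          (N : ℤ) * ((n g (el x) : ℚ) * φ (c x)) := by
        intro x hx
        rw [Int.cast_mul, hm x hx]
        ring
      rw [Finset.sum_congr rfl h6, ← Finset.mul_sum, h3, mul_zero]
    exact_mod_cast h5
  have hBF : ∀ g, n g F = 0 := by
    intro g
    have h1 : ((n g F : ℤ) : K) = ((∑ x ∈ c.support, m x * n g (el x) : ℤ) : K) := by
      rw [← hn g F, hFv, map_sum, Int.cast_sum]
      refine Finset.sum_congr rfl fun x _ => ?_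
      rw [map_smul, smul_eq_mul, Int.cast_mul]
      congr 1
      exact hn g (el x)
    rw [hrel g, Int.cast_zero] at h1
    exact_mod_cast h1
  have hF0 : (F : V) = 0 := by
    rw [hnd F hBF]
    rfl
  rw [hFv] at hF0
  have h1 := linearIndependent_iff'.1 hbi c.support (fun x => (m x : K)) hF0 b0 hb0s
  exact hm0 (by exact_mod_cast h1)

/-- ZI2-STDD -/
theorem stdd {K : Type u} [Field K] [CharZero K] (T : NCTheory.{u, v, w} K) (X : T.Obj)
    (h : T.StdD X) : Nn T.one X = ⊥ := by
  rw [eq_bot_iff]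
  rintro u ⟨hu, hu0⟩
  have hex : ∀ (g : T.cor X T.one) (f : T.cor T.one X), ∃ n : ℤ,
      (g : T.H X →ₗ[K] T.H T.one) ∘ₗ (f : T.H T.one →ₗ[K] T.H X) = n • LinearMap.id := by
    intro g f
    exact T.cor_one _ (T.cor_comp T.one X T.one f.1 f.2 g.1 g.2)
  choose n hn using hex
  have hB : ∀ g : T.cor X T.one, ∃ B : (T.H T.one →ₗ[K] T.H X) →ₗ[K] K, ∀ f,
      B f = LinearMap.trace K (T.H T.one) (T.par T.one ∘ₗ (g : T.H X →ₗ[K] T.H T.one) ∘ₗ f) := by
    intro g
    refine ⟨{ toFun := fun f => LinearMap.trace K (T.H T.one)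
                (T.par T.one ∘ₗ (g : T.H X →ₗ[K] T.H T.one) ∘ₗ f)
              map_add' := fun f f' => by
                rw [LinearMap.comp_add, LinearMap.comp_add, map_add]
              map_smul' := fun c f => by
                rw [LinearMap.comp_smul, LinearMap.comp_smul, map_smul, RingHom.id_apply] },
      fun f => rfl⟩
  choose B hB using hB
  rw [Submodule.mem_bot]
  refine core (T.cor T.one X) B n ?_ ?_ (v := u) hu ?_
  · intro g f
    rw [hB, hn g f, Y427.ZI.par_one, LinearMap.id_comp, map_zsmul, LinearMap.trace_id,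
      Y427.ZI.finrank_one' T, Nat.cast_one, zsmul_one]
  · intro f hf
    apply Subtype.ext
    refine h f.1 f.2 fun g hg => ?_
    have h1 := hn ⟨g, hg⟩ f
    rw [hf ⟨g, hg⟩, zero_smul] at h1
    exact h1
  · intro g
    rw [hB]
    exact hu0 _ (of_cor g.2)

end Pool.Agent.Y689.ZI
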